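import Pool.Agent.R497.TM.Defs

set_option autoImplicit false

/-! Project TM (helper497), piece SCE: the conditional expectation on the invariant sets of the suspension flow. -/

namespace Pool.Agent.R452.TM

open MeasureTheory Filter Finset
open Pool.Agent.Y957.MC (IsFlow flowInv smo)
open Pool.Agent.R497.Er (zp sus sus_meas sus_zero sus_add sus_mp zp_zero zp_natCast zp_neg_natCast)
open Pool.Agent.R497.TM

universe u

lemma flowInv_le {X : Type u} [MeasurableSpace X] (τ : ℝ → X → X) : flowInv τ ≤ ‹MeasurableSpace X› :=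
  (iInf_le _ (0 : ℝ)).trans (MeasurableSpace.invariants_le _)

lemma zp_inv {X : Type u} [MeasurableSpace X] (T : X ≃ᵐ X) (B : Set X) (hB : T ⁻¹' B = B) (k : ℤ) (x : X) :
    zp T k x ∈ B ↔ x ∈ B := by
  have h1 : ∀ x, T x ∈ B ↔ x ∈ B := fun x => by
    have := Set.ext_iff.1 hB x
    rwa [Set.mem_preimage] at this
  have h2 : ∀ x, T.symm x ∈ B ↔ x ∈ B := fun x => by
    have := h1 (T.symm x)
    rw [MeasurableEquiv.apply_symm_apply] at this
    exact this.symm
  rcases Int.eq_nat_or_neg k with ⟨n, rfl | rfl⟩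
  · rw [zp_natCast]
    induction n generalizing x with
    | zero => simp
    | succ n ih =>
      rw [Function.iterate_succ_apply]
      exact (ih _).trans (h1 _)
  · rw [zp_neg_natCast]
    induction n generalizing x with
    | zero => simp
    | succ n ih =>
      rw [Function.iterate_succ_apply]
      exact (ih _).trans (h2 _)

lemma snd_meas {X : Type u} [MeasurableSpace X] (T : X ≃ᵐ X) :
    @Measurable (ℝ × X) X (flowInv (sus T)) (MeasurableSpace.invariants T) Prod.snd := by
  intro B hB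
  obtain ⟨hB1, hB2⟩ := hB
  refine MeasurableSpace.measurableSet_iInf.2 fun t => ⟨measurable_snd hB1, ?_⟩
  ext p
  simp only [Set.mem_preimage]
  exact zp_inv T B hB2 _ _

lemma sec_inv {X : Type u} [MeasurableSpace X] (T : X ≃ᵐ X) (A : Set (ℝ × X))
    (hA : MeasurableSet[flowInv (sus T)] A) (s : ℝ) (hs : s ∈ Set.Ico (0 : ℝ) 1) (x : X) :
    (s, x) ∈ A ↔ ((0 : ℝ), x) ∈ A := by
  have h1 := ((MeasurableSpace.measurableSet_iInf.1 hA s).2)
  have h2 : sus T s (0, x) = (s, x) := by
    have hfr : Int.fract s = s := Int.fract_eq_self.2 ⟨hs.1, hs.2⟩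
    have hfl : ⌊s⌋ = 0 := Int.floor_eq_zero_iff.2 ⟨hs.1, hs.2⟩
    unfold sus
    simp [hfr, hfl, zp_zero]
  have h3 := Set.ext_iff.1 h1 (0, x)
  rw [Set.mem_preimage, h2] at h3
  exact h3

lemma sec_T {X : Type u} [MeasurableSpace X] (T : X ≃ᵐ X) (A : Set (ℝ × X))
    (hA : MeasurableSet[flowInv (sus T)] A) (x : X) : ((0 : ℝ), T x) ∈ A ↔ ((0 : ℝ), x) ∈ A := by
  have h1 := ((MeasurableSpace.measurableSet_iInf.1 hA 1).2)
  have h2 : sus T 1 (0, x) = (0, T x) := by
    have h4 : zp T 1 x = T x := by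
      have := zp_natCast T 1 x
      simpa using this
    unfold sus
    simp [h4]
  have h3 := Set.ext_iff.1 h1 (0, x)
  rw [Set.mem_preimage, h2] at h3
  exact h3

lemma set_int {X : Type u} [MeasurableSpace X] (μ : Measure X) [IsProbabilityMeasure μ] (T : X ≃ᵐ X)
    (A : Set (ℝ × X)) (hA : MeasurableSet[flowInv (sus T)] A) (F : X → ℂ) (hF : AEStronglyMeasurable F μ) :
    ∫ p in A, F p.2 ∂(nu μ) = ∫ x in {x : X | ((0 : ℝ), x) ∈ A}, F x ∂μ := by
  have hA1 : MeasurableSet A := flowInv_le _ _ hA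
  have hA0 : MeasurableSet {x : X | ((0 : ℝ), x) ∈ A} := measurable_prodMk_left hA1
  have hms : MeasurePreserving (Prod.snd : ℝ × X → X) (nu μ) μ := measurePreserving_snd
  have hae : A =ᵐ[nu μ] Prod.snd ⁻¹' {x : X | ((0 : ℝ), x) ∈ A} := by
    have h1 : ∀ᵐ p ∂(nu μ), p.1 ∈ Set.Ico (0 : ℝ) 1 := by
      have h2 : ∀ᵐ s ∂(volume.restrict (Set.Ico (0 : ℝ) 1)), s ∈ Set.Ico (0 : ℝ) 1 :=
        ae_restrict_mem measurableSet_Ico
      exact Measure.quasiMeasurePreserving_fst.ae h2
    filter_upwards [h1] with p hp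
    have h3 := sec_inv T A hA p.1 hp p.2
    exact propext h3
  rw [setIntegral_congr_set hae]
  have h5 := setIntegral_map (μ := nu μ) (g := (Prod.snd : ℝ × X → X)) (f := F) hA0
    (by rw [hms.map_eq]; exact hF) hms.measurable.aemeasurable
  rw [hms.map_eq] at h5
  exact h5.symm

theorem t_SCE : S_SCE.{u} := by
  intro X _ μ _ T f hT hf ⟨C, hC⟩
  have hfi : Integrable f μ := Integrable.of_bound hf C hC
  have hms : MeasurePreserving (Prod.snd : ℝ × X → X) (nu μ) μ := measurePreserving_snd
  have : IsProbabilityMeasure (nu μ) := by unfold nu; infer_instance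
  have hgi : Integrable (μ[f | MeasurableSpace.invariants T]) μ := integrable_condExp
  symm
  refine ae_eq_condExp_of_forall_setIntegral_eq (flowInv_le _) (hms.integrable_comp_of_integrable hfi) ?_ ?_ ?_
  · intro A _ _
    exact (hms.integrable_comp_of_integrable hgi).integrableOn
  · intro A hA _
    rw [set_int μ T A hA _ hgi.aestronglyMeasurable, set_int μ T A hA _ hf]
    refine setIntegral_condExp (MeasurableSpace.invariants_le _) hfi ⟨?_, ?_⟩
    · exact measurable_prodMk_left (flowInv_le _ _ hA)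
    · ext x
      exact sec_T T A hA x
  · exact (stronglyMeasurable_condExp.comp_measurable (snd_meas T)).aestronglyMeasurable

end Pool.Agent.R452.TM
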